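import Pool.Agent.Helper19.HV.StC
import Pool.Agent.Helper91.PL.A2

/-!
# Project HV, module RCM: residues of constants and of the products with `t - b`
-/

set_option autoImplicit false

open scoped TensorProduct

namespace Pool.Agent.Helper19.HV

noncomputable section

open PL

section

variable {F : Type} [Field F]

private theorem rcm_unit_C (a : F) {c : F} (hc : c ≠ 0) : UnitAt a (RatFunc.C c) c :=
  ⟨val_C a c, hc⟩

private theorem rcm_unit_X {a b : F} (h : b ≠ a) :
    UnitAt a (RatFunc.X - RatFunc.C b) (a - b) := by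
  refine ⟨?_, sub_ne_zero.2 h.symm⟩
  have h1 := val_add (val_X a) (val_C a (-b))
  rw [map_neg, ← sub_eq_add_neg, ← sub_eq_add_neg] at h1
  exact h1

private theorem rcm_val_map (a : F) (x : P1 F) : val a (Option.map RatFunc.C x) = x := by
  cases x with
  | none => rfl
  | some x => exact val_C a x

private theorem rcm_snoc_lg {j : ℕ} (u : Fin j → RatFunc F) (g : RatFunc F) :
    (Fin.snoc (α := fun _ => V (RatFunc F)) (fun i => lg (u i)) (lg g) :
      Fin (j + 1) → V (RatFunc F)) =
      fun i => lg ((Fin.snoc (α := fun _ => RatFunc F) u g : Fin (j + 1) → RatFunc F) i) := by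
  funext i
  refine Fin.lastCases ?_ (fun i => ?_) i
  · rw [Fin.snoc_last, Fin.snoc_last]
  · rw [Fin.snoc_castSucc, Fin.snoc_castSucc]

private theorem rcm_snoc_unit {j : ℕ} {a : F} {u : Fin j → RatFunc F} {c : Fin j → F}
    (hu : ∀ i, UnitAt a (u i) (c i)) {g : RatFunc F} {d : F} (hg : UnitAt a g d) :
    ∀ i, UnitAt a ((Fin.snoc (α := fun _ => RatFunc F) u g : Fin (j + 1) → RatFunc F) i)
      ((Fin.snoc (α := fun _ => F) c d : Fin (j + 1) → F) i) := by
  intro i
  refine Fin.lastCases ?_ (fun i => ?_) i
  · rw [Fin.snoc_last, Fin.snoc_last]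
    exact hg
  · rw [Fin.snoc_castSucc, Fin.snoc_castSucc]
    exact hu i

/-- a zero coordinate -/
private theorem rcm_pr_zero {G : Type} [Field G] {j : ℕ} (v : Fin j → V G) (i : Fin j)
    (h : v i = 0) : pr G j v = 0 := (pr G j).map_coord_zero i h

private theorem rcm_lgC {u : F} (h : u = 0) : lg (RatFunc.C u) = 0 := by
  rw [h, map_zero, lg_zero]

private theorem rcm_tm_zero {G : Type} [Field G] (q j : ℕ) (x : P1 G) :
    tm q j x (0 : W G j) = 0 := by
  rw [← tmL_apply, map_zero]

private theorem rcm_snoc_zero {j : ℕ} (u : Fin j → F) (i : Fin j) (h : u i = 0)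
    (v : V (RatFunc F)) : pr (RatFunc F) (j + 1) (Fin.snoc (α := fun _ => V (RatFunc F))
      (fun i => lg (RatFunc.C (u i))) v) = 0 := by
  apply rcm_pr_zero _ (Fin.castSucc i)
  rw [Fin.snoc_castSucc]
  exact rcm_lgC h

end

theorem mRCM : sGNR → sRCM := by
  intro hG F _ a ρ c m hρ hc hm
  refine ⟨?_, ?_, ?_⟩
  · intro k j z
    match k with
    | 0 => exact Subsingleton.elim (α := PUnit) _ _
    | 1 =>
      have h := hG F (Γ F 1 j) (j + 2) (ρ 1 j ∘ₗ c 1 (j + 1)) 0 (by
        intro u
        by_cases hu : ∃ i, u i = 0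
        · obtain ⟨i, hi⟩ := hu
          exact (congrArg (ρ 1 j) ((hc.one (j + 1) u).trans (rcm_pr_zero _ i (rcm_lgC hi)))).trans
            (map_zero (ρ 1 j))
        · push Not at hu
          exact (congrArg (ρ 1 j) (hc.one (j + 1) u)).trans
            (hρ.one0 j (fun i => RatFunc.C (u i)) u fun i => rcm_unit_C a (hu i)))
      exact LinearMap.congr_fun h z
    | (q + 2) =>
      have h := gext q (j + 1) (ρ (q + 2) j ∘ₗ c (q + 2) (j + 1)) 0 (by
        intro x l
        have h2 := hG F (Γ F (q + 2) j) (j + 1)
          ((ρ (q + 2) j ∘ₗ c (q + 2) (j + 1)) ∘ₗ tmL q (j + 1) x) 0 (by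
          intro u
          rw [LinearMap.comp_apply, LinearMap.comp_apply, LinearMap.zero_apply, tmL_apply, hc.two]
          by_cases hu : ∃ i, u i = 0
          · obtain ⟨i, hi⟩ := hu
            rw [rcm_pr_zero _ i (rcm_lgC hi), rcm_tm_zero, map_zero]
          · push Not at hu
            exact hρ.two0 q j _ (fun i => RatFunc.C (u i)) u fun i => rcm_unit_C a (hu i))
        exact LinearMap.congr_fun h2 l)
      exact LinearMap.congr_fun h z
  · intro k j y
    match k with
    | 0 => exact Subsingleton.elim (α := PUnit) _ _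
    | 1 =>
      have h := hG F (Γ F 1 j) (j + 1) (ρ 1 j ∘ₗ m a 1 j) LinearMap.id (by
        intro u
        by_cases hu : ∃ i, u i = 0
        · obtain ⟨i, hi⟩ := hu
          have h1 : pr F (j + 1) (fun i => lg (u i)) = 0 :=
            rcm_pr_zero _ i (by rw [hi, lg_zero])
          exact ((congrArg (ρ 1 j) ((hm.one a j u).trans (rcm_snoc_zero u i hi _))).trans
            (map_zero (ρ 1 j))).trans h1.symm
        · push Not at hu
          exact (congrArg (ρ 1 j) (hm.one a j u)).trans
            (hρ.one j (fun i => RatFunc.C (u i)) u fun i => rcm_unit_C a (hu i)))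
      exact LinearMap.congr_fun h y
    | (q + 2) =>
      have h := gext q j (ρ (q + 2) j ∘ₗ m a (q + 2) j) LinearMap.id (by
        intro x l
        have h2 := hG F (Γ F (q + 2) j) j
          ((ρ (q + 2) j ∘ₗ m a (q + 2) j) ∘ₗ tmL q j x) (tmL q j x) (by
          intro u
          rw [LinearMap.comp_apply, LinearMap.comp_apply, tmL_apply, hm.two]
          by_cases hu : ∃ i, u i = 0
          · obtain ⟨i, hi⟩ := hu
            have h1 : pr F j (fun i => lg (u i)) = 0 :=
              rcm_pr_zero _ i (by rw [hi, lg_zero])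
            rw [rcm_snoc_zero u i hi _, rcm_tm_zero, map_zero, h1, rcm_tm_zero]
          · push Not at hu
            have h1 := hρ.two q j (Option.map RatFunc.C x) (fun i => RatFunc.C (u i)) u
              fun i => rcm_unit_C a (hu i)
            rw [rcm_val_map] at h1
            exact h1)
        exact LinearMap.congr_fun h2 l)
      exact LinearMap.congr_fun h y
  · intro b hb k j y
    match k with
    | 0 => exact Subsingleton.elim (α := PUnit) _ _
    | 1 =>
      have h := hG F (Γ F 1 j) (j + 1) (ρ 1 j ∘ₗ m b 1 j) 0 (by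
        intro u
        by_cases hu : ∃ i, u i = 0
        · obtain ⟨i, hi⟩ := hu
          exact (congrArg (ρ 1 j) ((hm.one b j u).trans (rcm_snoc_zero u i hi _))).trans
            (map_zero (ρ 1 j))
        · push Not at hu
          have h1 := hρ.one0 j _ _ (rcm_snoc_unit (fun i => rcm_unit_C a (hu i))
            (rcm_unit_X (a := a) hb))
          rw [← rcm_snoc_lg] at h1
          exact (congrArg (ρ 1 j) (hm.one b j u)).trans h1)
      exact LinearMap.congr_fun h y
    | (q + 2) =>
      have h := gext q j (ρ (q + 2) j ∘ₗ m b (q + 2) j) 0 (by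
        intro x l
        have h2 := hG F (Γ F (q + 2) j) j
          ((ρ (q + 2) j ∘ₗ m b (q + 2) j) ∘ₗ tmL q j x) 0 (by
          intro u
          rw [LinearMap.comp_apply, LinearMap.comp_apply, LinearMap.zero_apply, tmL_apply, hm.two]
          by_cases hu : ∃ i, u i = 0
          · obtain ⟨i, hi⟩ := hu
            rw [rcm_snoc_zero u i hi _, rcm_tm_zero, map_zero]
          · push Not at hu
            have h1 := hρ.two0 q j (Option.map RatFunc.C x) _ _
              (rcm_snoc_unit (fun i => rcm_unit_C a (hu i)) (rcm_unit_X (a := a) hb))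
            rw [← rcm_snoc_lg] at h1
            exact h1)
        exact LinearMap.congr_fun h2 l)
      exact LinearMap.congr_fun h y

end

end Pool.Agent.Helper19.HV
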